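import Mathlib
import Pool.Agent.X231.SUInv

set_option autoImplicit false

open Matrix Pool.Agent.X231.SUInv

namespace Pool.Agent.Results.MP_ca7eb7_al.FourInvolutions

/-- For every `n ≥ 3` not congruent to `2` modulo `4`, every element of `SU(n, ℂ)` is a product of
four involutions of `SU(n, ℂ)`. -/
theorem result (n : ℕ) (hn : 3 ≤ n) (h4 : n % 4 ≠ 2) (A : specialUnitaryGroup (Fin n) ℂ) :
    ∃ s₁ s₂ s₃ s₄ : specialUnitaryGroup (Fin n) ℂ,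
      s₁ ^ 2 = 1 ∧ s₂ ^ 2 = 1 ∧ s₃ ^ 2 = 1 ∧ s₄ ^ 2 = 1 ∧ A = s₁ * s₂ * s₃ * s₄ := by
  obtain ⟨_, _, ⟨M2, M3, h2, h3, rfl⟩, ⟨M4, M5, h4, h5, rfl⟩, hM⟩ :=
    four_of_diag (four_diag (by omega) h4) A.1 A.2
  obtain ⟨s2, e2, f2⟩ := lift_inv h2
  obtain ⟨s3, e3, f3⟩ := lift_inv h3
  obtain ⟨s4, e4, f4⟩ := lift_inv h4
  obtain ⟨s5, e5, f5⟩ := lift_inv h5
  refine ⟨s2, s3, s4, s5, e2, e3, e4, e5, ?_⟩
  apply Subtype.ext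
  rw [hM]
  show _ = s2.1 * s3.1 * s4.1 * s5.1
  rw [f2, f3, f4, f5]
  simp only [mul_assoc]

end Pool.Agent.Results.MP_ca7eb7_al.FourInvolutions
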